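import Pool.Agent.MWLE.StmtsA
import Pool.Agent.Helper4_MWGN.SRT

/-!
# MWLE, row TNF: normal form of the tails (MP_23468a_al)
-/

namespace Pool.Agent.MWLE.H71

open Pool.Agent.Helper14_MV Pool.Agent.Helper2_MV
open Pool.Agent.MWK (pre Gw)
open Pool.Agent.MWF (Ap gaml dbl)
open Pool.Agent.MWGN (nn Gz E0 P0 A0 Tau gh)

theorem gm1 {β : FIC} (h : Gz β) (A B : List ℕ) (c : ℕ) (hc : c ∈ A) :
    RR β (A ++ c :: c :: B) (A ++ c :: B) := by
  obtain ⟨A1, A2, rfl⟩ := List.append_of_mem hc
  have h1 := RR.sub (fun i => if i = 0 then [c] else A2) h.gw.gm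
  have h2 := RR.append (RR.append (RR.refl A1) h1) (RR.refl B)
  have h3 := RR.symm h2
  simpa using h3

theorem gmr {β : FIC} (h : Gz β) (c : ℕ) : ∀ (e : ℕ) (A B : List ℕ), c ∈ A →
    RR β (A ++ (List.replicate (e + 1) c ++ B)) (A ++ c :: B)
  | 0, A, B, _ => by simpa using RR.refl (A ++ c :: B)
  | e + 1, A, B, hc => by
    have h1 := gmr h c e (A ++ [c]) B (List.mem_append_left _ hc)
    have h2 := gm1 h A B c hc
    have e1 : A ++ (List.replicate (e + 1 + 1) c ++ B) =
        (A ++ [c]) ++ (List.replicate (e + 1) c ++ B) := by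
      simp [List.replicate_succ]
    have e2 : A ++ c :: c :: B = (A ++ [c]) ++ c :: B := by simp
    rw [e1]
    rw [e2] at h2
    exact β.trans h1 h2

theorem gml {β : FIC} (h : Gz β) (e : ℕ → ℕ) : ∀ (L : List ℕ) (A : List ℕ),
    (∀ k ∈ L, pin k ∈ A) →
    RR β (A ++ L.flatMap (fun k => sep k :: List.replicate (e k + 1) (pin k)))
      (A ++ L.flatMap (fun k => [sep k, pin k]))
  | [], A, _ => by simpa using RR.refl A
  | k :: L, A, hA => by
    have h1 := gmr h (pin k) (e k) (A ++ [sep k])
      (L.flatMap (fun k => sep k :: List.replicate (e k + 1) (pin k)))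
      (List.mem_append_left _ (hA k (by simp)))
    have h2 := gml h e L (A ++ [sep k, pin k])
      (fun j hj => List.mem_append_left _ (hA j (by simp [hj])))
    have e1 : A ++ (k :: L).flatMap (fun k => sep k :: List.replicate (e k + 1) (pin k)) =
        (A ++ [sep k]) ++ (List.replicate (e k + 1) (pin k) ++
          L.flatMap (fun k => sep k :: List.replicate (e k + 1) (pin k))) := by
      simp
    have e2 : (A ++ [sep k]) ++ pin k ::
        L.flatMap (fun k => sep k :: List.replicate (e k + 1) (pin k)) =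
        (A ++ [sep k, pin k]) ++
          L.flatMap (fun k => sep k :: List.replicate (e k + 1) (pin k)) := by
      simp
    have e3 : A ++ (k :: L).flatMap (fun k => [sep k, pin k]) =
        (A ++ [sep k, pin k]) ++ L.flatMap (fun k => [sep k, pin k]) := by
      simp
    rw [e1, e3]
    rw [e2] at h1
    exact β.trans h1 h2

theorem pw_pre : ∀ (s : List ℕ), s.Nodup → s.Pairwise (fun j k => j ∈ pre s k) := by
  intro s hs
  -- general form
  have key : ∀ (a b : List ℕ), (a ++ b).Nodup → b.Pairwise (fun j k => j ∈ pre (a ++ b) k) := by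
    intro a b
    induction b generalizing a with
    | nil => intro _; exact List.Pairwise.nil
    | cons x b ih =>
      intro hn
      have e : a ++ x :: b = (a ++ [x]) ++ b := by simp
      refine List.Pairwise.cons ?_ ?_
      · intro k hk
        rw [e]
        have hk' : k ∉ a ++ [x] := by
          intro h1
          rw [e, List.nodup_append] at hn
          exact hn.2.2 k h1 k hk rfl
        rw [MWK.pre_append hk']
        simp
      · rw [e] at hn ⊢
        exact ih (a ++ [x]) hn
  simpa using key [] s (by simpa using hs)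

theorem sep_inj {j k : ℕ} (h : sep j = sep k) : j = k := by unfold sep at h; omega
theorem pin_inj {j k : ℕ} (h : pin j = pin k) : j = k := by unfold pin at h; omega
theorem sep_pin {j k : ℕ} : sep j ≠ pin k := by unfold sep pin; omega

theorem tnf : TnfStmt := by
  intro β hG σ τ m hS W hF P A hA
  obtain ⟨h, σ', hσ⟩ : ∃ h σ', σ = h :: σ' := by
    cases hc : σ with
    | nil =>
      have := (hS.me 0).2 (by omega)
      rw [hc] at this
      simp at this
    | cons h s => exact ⟨h, s, rfl⟩
  have hh : h ≤ 2 * m + 2 := (hS.me h).1 (by rw [hσ]; simp)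
  have hth : t1 σ = sep h := by rw [hσ]; rfl
  obtain ⟨p0, hp0⟩ : ∃ p0, p0 = pre W (t1 σ) := ⟨_, rfl⟩
  obtain ⟨T, hT⟩ : ∃ T, T = sf W (t1 σ) := ⟨_, rfl⟩
  have hW : W = p0 ++ T := by
    rw [hp0, hT]
    exact (List.prefix_iff_eq_append.1 (MWK.pre_prefix W (t1 σ))).symm
  have hpc : ∀ k ≤ 2 * m + 2, p0.count (pin k) = 1 := fun k hk => by
    rw [hp0]
    exact hF.pt k hk
  have hs0 : ∀ k ≤ 2 * m + 2, sep k ∉ p0 := by
    intro k hk hm
    rw [hp0, hth] at hm
    have hkh : k ≠ h := by
      rintro rfl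
      exact MWK.not_mem_pre W (sep k) hm
    have h1 : h ∈ pre σ k := by
      rw [hσ]
      unfold pre
      simp [Ne.symm hkh]
    have h2 := hF.ss h k hh hk h1
    have h3 : sep h ∈ pre W (sep k) := List.count_pos_iff.1 (by unfold nn at h2; omega)
    exact MWK.pre_asymm hm h3
  have hsT : ∀ k ≤ 2 * m + 2, T.count (sep k) = 1 := by
    intro k hk
    have h1 := hF.s1 k hk
    rw [hW, List.count_append, List.count_eq_zero_of_not_mem (hs0 k hk)] at h1
    omega
  have hpT : ∀ k ≤ 2 * m + 2, 1 ≤ T.count (pin k) := by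
    intro k hk
    have h1 := hF.p2 k hk
    rw [hW, List.count_append, hpc k hk] at h1
    omega
  have K1 : ∀ k ≤ 2 * m + 2, ∀ T1 T2, T = T1 ++ T2 → pin k ∈ T1 → sep k ∉ T2 := by
    intro k hk T1 T2 e hp hs
    have h1 := hF.s1 k hk
    rw [hW, e, ← List.append_assoc, List.count_append] at h1
    have h2 : 0 < T2.count (sep k) := List.count_pos_iff.2 hs
    have h3 : sep k ∉ p0 ++ T1 := by
      intro h4
      have := List.count_pos_iff.2 h4
      omega
    have h4 : pre W (sep k) = (p0 ++ T1) ++ pre T2 (sep k) := by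
      rw [hW, e, ← List.append_assoc, MWK.pre_append h3]
    have h5 := hF.ps k hk
    unfold nn at h5
    rw [h4, List.count_append, List.count_append, hpc k hk] at h5
    have := List.count_pos_iff.2 hp
    omega
  have K2 : ∀ j k, j ≤ 2 * m + 2 → k ≤ 2 * m + 2 → j ∈ pre σ k → ∀ T1 T2, T = T1 ++ T2 →
      sep k ∈ T1 → pin j ∉ T2 ∧ sep j ∉ T2 := by
    intro j k hj hk hjk T1 T2 e hs
    have h1 : ∀ c, nn W c (sep k) = W.count c → c ∉ T2 := by
      intro c hc hm
      have h2 : pre W (sep k) = pre (p0 ++ T1) (sep k) := by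
        rw [hW, e, ← List.append_assoc, MWK.pre_append_mem (List.mem_append_right _ hs)]
      have h3 := MWK.count_pre_le (p0 ++ T1) c (sep k)
      unfold nn at hc
      rw [h2] at hc
      rw [hW, e, ← List.append_assoc, List.count_append] at hc
      have := List.count_pos_iff.2 hm
      omega
    refine ⟨h1 _ (hF.pa j k hj hk hjk), h1 _ ?_⟩
    rw [hF.ss j k hj hk hjk, hF.s1 j hj]
  obtain ⟨F, hFd⟩ : ∃ F : ℕ → Bool, F = (fun c => decide (∃ k, k ≤ 2 * m + 2 ∧ P k = true ∧
      (c = sep k ∨ c = pin k))) := ⟨_, rfl⟩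
  obtain ⟨l, hl⟩ : ∃ l, l = T.filter F := ⟨_, rfl⟩
  rw [← hT, ← hFd, ← hl]
  have hFs : ∀ k ∈ σ.filter P, F (sep k) = true ∧ F (pin k) = true := by
    intro k hk
    rw [List.mem_filter, hS.me k] at hk
    rw [hFd]
    exact ⟨decide_eq_true ⟨k, hk.1, hk.2, Or.inl rfl⟩, decide_eq_true ⟨k, hk.1, hk.2, Or.inr rfl⟩⟩
  have hle : ∀ k ∈ σ.filter P, k ≤ 2 * m + 2 := by
    intro k hk
    rw [List.mem_filter, hS.me k] at hk
    exact hk.1
  have hnd : (tl (σ.filter P)).Nodup := by
    unfold tl
    rw [List.nodup_flatMap]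
    refine ⟨fun k _ => by simp [sep_pin], ?_⟩
    refine (hS.nd.filter P).pairwise_of_forall_ne ?_
    intro j _ k _ hjk c hc1 hc2
    simp only [List.mem_cons, List.not_mem_nil, or_false] at hc1 hc2
    rcases hc1 with rfl | rfl <;> rcases hc2 with h1 | h1
    · exact hjk (sep_inj h1)
    · exact sep_pin h1
    · exact sep_pin h1.symm
    · exact hjk (pin_inj h1)
  have hmem : ∀ c ∈ l, c ∈ tl (σ.filter P) := by
    intro c hc
    rw [hl, List.mem_filter, hFd] at hc
    obtain ⟨k, hk, hPk, hc'⟩ := of_decide_eq_true hc.2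
    unfold tl
    rw [List.mem_flatMap]
    refine ⟨k, List.mem_filter.2 ⟨(hS.me k).2 hk, hPk⟩, ?_⟩
    rcases hc' with rfl | rfl <;> simp
  have hsep : ∀ k ≤ 2 * m + 2, ∀ d, (d = sep k ∨ d = pin k) → ∀ T1 T2, T = T1 ++ T2 → d ∈ T1 →
      sep k ∈ T1 := by
    intro k hk d hd T1 T2 e hdT
    rcases hd with rfl | rfl
    · exact hdT
    · have h1 := K1 k hk T1 T2 e hdT
      have h2 : sep k ∈ T := List.count_pos_iff.1 (by rw [hsT k hk]; omega)
      rw [e, List.mem_append] at h2
      rcases h2 with h2 | h2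
      · exact h2
      · exact absurd h2 h1
  have hpw : (tl (σ.filter P)).Pairwise
      (fun c d => ∀ u v : List ℕ, l = u ++ v → d ∈ u → c ∉ v) := by
    unfold tl
    rw [List.pairwise_flatMap]
    constructor
    · intro k hk
      have hk' := hle k hk
      refine List.Pairwise.cons ?_ (List.pairwise_singleton _ _)
      intro d hd u v e hdu
      rw [List.mem_singleton] at hd
      subst hd
      rw [hl, List.filter_eq_append_iff] at e
      obtain ⟨T1, T2, e1, rfl, rfl⟩ := e
      intro hm
      exact K1 k hk' T1 T2 e1 (List.mem_of_mem_filter hdu) (List.mem_of_mem_filter hm)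
    · have h1 : (σ.filter P).Pairwise (fun j k => j ∈ pre σ k) := (pw_pre σ hS.nd).filter P
      have h2 : (σ.filter P).Pairwise (fun j k => j ∈ σ.filter P ∧ k ∈ σ.filter P ∧
          j ∈ pre σ k) := List.Pairwise.and_mem.1 h1
      refine h2.imp ?_
      rintro j k ⟨hj, hk, hjk⟩ c hc d hd u v e hdu hm
      rw [hl, List.filter_eq_append_iff] at e
      obtain ⟨T1, T2, e1, rfl, rfl⟩ := e
      have h3 := hsep k (hle k hk) d (by simpa using hd) T1 T2 e1 (List.mem_of_mem_filter hdu)
      have h4 := K2 j k (hle j hj) (hle k hk) hjk T1 T2 e1 h3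
      have h5 := List.mem_of_mem_filter hm
      simp only [List.mem_cons, List.not_mem_nil, or_false] at hc
      rcases hc with rfl | rfl
      · exact h4.2 h5
      · exact h4.1 h5
  have hfin := MWGN.H4.srt (tl (σ.filter P)) l hnd hmem hpw
  have hform : l = (σ.filter P).flatMap
      (fun k => sep k :: List.replicate ((l.count (pin k) - 1) + 1) (pin k)) := by
    conv_lhs => rw [hfin]
    unfold tl
    rw [List.flatMap_assoc]
    apply List.flatMap_congr
    intro k hk
    have h1 : l.count (sep k) = 1 := by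
      rw [hl, List.count_filter (hFs k hk).1, hsT k (hle k hk)]
    have h2 : 1 ≤ l.count (pin k) := by
      rw [hl, List.count_filter (hFs k hk).2]
      exact hpT k (hle k hk)
    have h3 : l.count (pin k) - 1 + 1 = l.count (pin k) := by omega
    rw [h3]
    simp [h1]
  have h9 := gml hG (fun k => l.count (pin k) - 1) (σ.filter P) A (fun k hk => hA k (hle k hk)
    (List.mem_filter.1 hk).2)
  rw [← hform] at h9
  exact h9

end Pool.Agent.MWLE.H71
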